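import Mathlib

open Polynomial intervalIntegral

namespace Pool.Agent.Results.MP_c605fa_an.MaxArc

/-- Arc-length of the graph of `P` over `[-1, 1]`. -/
noncomputable def arcLen (P : ℝ[X]) : ℝ := ∫ x in (-1 : ℝ)..1, √(1 + (P.derivative.eval x) ^ 2)

lemma cont (P : ℝ[X]) : Continuous fun x => √(1 + (P.derivative.eval x) ^ 2) := by fun_prop

lemma sqrt_conv {a b p q : ℝ} (ha : 0 ≤ a) (hb : 0 ≤ b) (hab : a + b = 1) :
    √(1 + (a * p + b * q) ^ 2) ≤ a * √(1 + p ^ 2) + b * √(1 + q ^ 2) := by
  rw [Real.sqrt_le_iff]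
  refine ⟨by positivity, ?_⟩
  have hp : √(1 + p ^ 2) ^ 2 = 1 + p ^ 2 := Real.sq_sqrt (by positivity)
  have hq : √(1 + q ^ 2) ^ 2 = 1 + q ^ 2 := Real.sq_sqrt (by positivity)
  have hpq : 1 + p * q ≤ √(1 + p ^ 2) * √(1 + q ^ 2) := by
    rw [← Real.sqrt_mul (by positivity)]
    exact Real.le_sqrt_of_sq_le (by nlinarith [sq_nonneg (p - q)])
  have h1 : (a + b) ^ 2 = 1 := by rw [hab]; norm_num
  have h2 := mul_le_mul_of_nonneg_left hpq (mul_nonneg ha hb)
  generalize √(1 + p ^ 2) = P at *
  generalize √(1 + q ^ 2) = Q at *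
  have e : (a * P + b * Q) ^ 2 = a ^ 2 * P ^ 2 + b ^ 2 * Q ^ 2 + 2 * (a * b * (P * Q)) := by ring
  rw [e, hp, hq]
  nlinarith

lemma arc_conv {a b : ℝ} (ha : 0 ≤ a) (hb : 0 ≤ b) (hab : a + b = 1) (P Q : ℝ[X]) :
    arcLen (C a * P + C b * Q) ≤ a * arcLen P + b * arcLen Q := by
  unfold arcLen
  rw [← integral_const_mul, ← integral_const_mul, ← integral_add
    (((cont P).intervalIntegrable _ _).const_mul a)
    (((cont Q).intervalIntegrable _ _).const_mul b)]
  refine integral_mono_on (by norm_num) ((cont _).intervalIntegrable _ _)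
    ((((cont P).intervalIntegrable _ _).const_mul a).add
      (((cont Q).intervalIntegrable _ _).const_mul b))
    fun x _ => ?_
  simpa using sqrt_conv ha hb hab

lemma chord (n : ℕ) : 2 * √(1 + (2 ^ n) ^ 2) ≤ arcLen ((X + 1) ^ (n + 1)) := by
  set c : ℝ := 2 ^ n with hc
  have hs : 0 < √(1 + c ^ 2) := Real.sqrt_pos.2 (by positivity)
  have hs2 : √(1 + c ^ 2) * √(1 + c ^ 2) = 1 + c ^ 2 := Real.mul_self_sqrt (by positivity)
  have h1 : ∫ x in (-1 : ℝ)..1, (derivative ((X + 1 : ℝ[X]) ^ (n + 1))).eval x = 2 * c := by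
    rw [integral_eq_sub_of_hasDerivAt (f := fun x => ((X + 1 : ℝ[X]) ^ (n + 1)).eval x)
      (fun x _ => Polynomial.hasDerivAt _ x) ((Polynomial.continuous _).intervalIntegrable _ _)]
    simp [hc]; ring
  have h2 : ∫ x in (-1 : ℝ)..1, (1 + c * (derivative ((X + 1 : ℝ[X]) ^ (n + 1))).eval x)
      / √(1 + c ^ 2) = 2 * √(1 + c ^ 2) := by
    rw [integral_div, integral_add intervalIntegrable_const
      (((Polynomial.continuous _).intervalIntegrable _ _).const_mul c), integral_const_mul, h1, div_eq_iff hs.ne']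
    simp only [integral_const, smul_eq_mul]
    nlinarith
  rw [← h2]
  refine integral_mono_on (by norm_num) (Continuous.intervalIntegrable (by fun_prop) _ _)
    ((cont _).intervalIntegrable _ _) fun x _ => ?_
  rw [div_le_iff₀ hs, ← Real.sqrt_mul (by positivity)]
  generalize (derivative ((X + 1 : ℝ[X]) ^ (n + 1))).eval x = p
  exact Real.le_sqrt_of_sq_le (by nlinarith [sq_nonneg (p - c)])

lemma choose_ge (k m : ℕ) : k + 1 ≤ (k + (m + 1)).choose (m + 1) := by
  induction m with
  | zero => simp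
  | succ m ih =>
    rw [← add_assoc, Nat.choose_succ_succ]
    omega

lemma term_le (k m : ℕ) {u v : ℝ} (hu : 0 ≤ u) (hv : 0 ≤ v) (huv : u + v = 2) :
    (k + 1) * (u ^ (m + 1) * v ^ k) ≤ 2 ^ (k + m + 1) := by
  rw [← huv, add_pow]
  have h := Finset.single_le_sum (s := Finset.range (k + m + 1 + 1))
    (f := fun i => u ^ i * v ^ (k + m + 1 - i) * ((k + m + 1).choose i : ℝ))
    (fun i _ => by positivity) (a := m + 1) (by simp)
  refine le_trans ?_ h
  simp only [show k + m + 1 - (m + 1) = k by omega]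
  rw [mul_comm]
  refine mul_le_mul_of_nonneg_left ?_ (by positivity)
  exact_mod_cast choose_ge k m

lemma base (k m : ℕ) : arcLen ((X - 1) ^ k * (X + 1) ^ m) ≤ arcLen ((X + 1) ^ (k + m)) := by
  rcases k with _ | k
  · simp
  rcases m with _ | m
  · apply le_of_eq
    unfold arcLen
    have := integral_comp_neg (a := -1) (b := 1)
      (fun x : ℝ => √(1 + ((derivative ((X + 1 : ℝ[X]) ^ (k + 1))).eval x) ^ 2))
    simp only [neg_neg] at this
    rw [add_zero, ← this]
    congr 1
    funext x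
    congr 2
    simp only [pow_zero, mul_one, derivative_pow, derivative_sub, derivative_add, derivative_X,
      derivative_one, eval_mul, eval_pow, eval_sub, eval_add, eval_X, eval_one, eval_C, sub_zero,
      add_zero, mul_pow, ← pow_mul]
    rw [show -x + 1 = -(x - 1) by ring, Even.neg_pow (by simp)]
  · refine le_trans ?_ (chord (k + 1 + m))
    have e : 2 * √(1 + ((2:ℝ) ^ (k + 1 + m)) ^ 2)
        = ∫ _x in (-1 : ℝ)..1, √(1 + ((2:ℝ) ^ (k + 1 + m)) ^ 2) := by
      simp only [integral_const, smul_eq_mul]; norm_num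
    rw [e]
    refine integral_mono_on (by norm_num) ((cont _).intervalIntegrable _ _) (by simp)
      fun x hx => Real.sqrt_le_sqrt ?_
    have hu : 0 ≤ 1 + x := by linarith [hx.1]
    have hv : 0 ≤ 1 - x := by linarith [hx.2]
    have h1 := term_le k m hu hv (by ring)
    have h2 := term_le m k hv hu (by ring)
    have h3 : (derivative ((X - 1 : ℝ[X]) ^ (k + 1) * (X + 1) ^ (m + 1))).eval x
        = (-1) ^ k * ((k + 1) * ((1 + x) ^ (m + 1) * (1 - x) ^ k)
          - (m + 1) * ((1 - x) ^ (k + 1) * (1 + x) ^ m)) := by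
      simp only [derivative_mul, derivative_pow, derivative_sub, derivative_add, derivative_X,
        derivative_one, eval_mul, eval_pow, eval_sub, eval_add, eval_X, eval_one, eval_C, sub_zero,
        add_zero, add_tsub_cancel_right]
      rw [show x - 1 = (-1) * (1 - x) by ring, mul_pow, mul_pow, add_comm x 1]
      push_cast
      ring
    rw [h3, mul_pow, ← pow_mul, Even.neg_one_pow (by simp), one_mul]
    rw [show m + k + 1 = k + 1 + m by ring] at h2
    rw [show k + m + 1 = k + 1 + m by ring] at h1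
    have h4 : 0 ≤ ((k:ℝ) + 1) * ((1 + x) ^ (m + 1) * (1 - x) ^ k) := by positivity
    have h5 : 0 ≤ ((m:ℝ) + 1) * ((1 - x) ^ (k + 1) * (1 + x) ^ m) := by positivity
    nlinarith

lemma main (l : List ℝ) (hl : ∀ t ∈ l, t ∈ Set.Icc (-1 : ℝ) 1) : ∀ k m : ℕ,
    arcLen ((X - 1) ^ k * (X + 1) ^ m * (l.map fun t => X - C t).prod)
      ≤ arcLen ((X + 1) ^ (k + m + l.length)) := by
  induction l with
  | nil => intro k m; simpa using base k m
  | cons t l ih =>
    intro k m
    have ht := hl t (by simp)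
    have ih' := ih fun s hs => hl s (by simp [hs])
    have h1 := ih' (k + 1) m
    have h2 := ih' k (m + 1)
    have h3 := arc_conv (a := (1 + t) / 2) (b := (1 - t) / 2) (by linarith [ht.1])
      (by linarith [ht.2]) (by ring) ((X - 1) ^ (k + 1) * (X + 1) ^ m * (l.map fun t => X - C t).prod)
      ((X - 1) ^ k * (X + 1) ^ (m + 1) * (l.map fun t => X - C t).prod)
    have e : (X - 1) ^ k * (X + 1) ^ m * ((t :: l).map fun t => X - C t).prod
        = C ((1 + t) / 2) * ((X - 1) ^ (k + 1) * (X + 1) ^ m * (l.map fun t => X - C t).prod)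
        + C ((1 - t) / 2) * ((X - 1) ^ k * (X + 1) ^ (m + 1) * (l.map fun t => X - C t).prod) := by
      have e1 : (X - C t : ℝ[X]) = C ((1 + t) / 2) * (X - 1) + C ((1 - t) / 2) * (X + 1) := by
        have h4 : C ((1 + t) / 2) + C ((1 - t) / 2) = (1 : ℝ[X]) := by
          rw [← C_add, ← C_1]; congr 1; ring
        have h5 : C ((1 + t) / 2) - C ((1 - t) / 2) = (C t : ℝ[X]) := by
          rw [← C_sub]; congr 1; ring
        linear_combination (-X) * h4 + h5
      rw [List.map_cons, List.prod_cons, e1]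
      ring
    rw [e]
    rw [show k + 1 + m + l.length = k + m + (t :: l).length by simp; ring] at h1
    rw [show k + (m + 1) + l.length = k + m + (t :: l).length by simp; ring] at h2
    nlinarith [ht.1, ht.2]

theorem result (n : ℕ) :
    IsMaxOn (fun x : Fin n → ℝ => arcLen (∏ i, (X - C (x i))))
      {x | ∀ i, x i ∈ Set.Icc (-1 : ℝ) 1} (fun _ => -1) := by
  intro x hx
  have h := main (List.ofFn x) (by
    intro t ht
    obtain ⟨i, rfl⟩ := List.mem_ofFn.1 ht
    exact hx i) 0 0
  simp only [pow_zero, one_mul, zero_add, List.length_ofFn, List.map_ofFn, List.prod_ofFn] at h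
  simpa using h

end Pool.Agent.Results.MP_c605fa_an.MaxArc
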